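import Pool.Agent.helper43.BMH.Spec

/-! # MP_cef0b4, row AVG -/

set_option autoImplicit false

namespace Pool.Agent.helper43.BMH

open scoped ENNReal

theorem t_avg (h : TY2) : AVG := by
  intro ι _ _ _ B z F hF hz
  rw [← Finset.sum_fiberwise_of_maps_to (t := orb z) (g := fun P : SP ι => act P z)
    (fun P _ => Finset.mem_image_of_mem _ (Finset.mem_univ P)), Finset.mul_sum]
  apply Finset.sum_le_sum
  intro u _
  have h1 : ∑ P ∈ Finset.univ.filter (fun P : SP ι => act P z = u), F (act P z) =
      ((Finset.univ.filter fun P : SP ι => act P z = u).card : ℝ) * F u := by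
    rw [Finset.sum_congr rfl (fun P hP => by rw [(Finset.mem_filter.1 hP).2]), Finset.sum_const,
      nsmul_eq_mul]
  rw [h1]
  exact mul_le_mul_of_nonneg_right (h ι B z u hz) (hF u)

end Pool.Agent.helper43.BMH
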