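import Pool.Agent.helper43.BMH.Spec

/-! # MP_cef0b4, row CHS -/

set_option autoImplicit false

namespace Pool.Agent.helper43.BMH

open scoped ENNReal

lemma CHS_sum {Ω : Type} [Fintype Ω] (θ : Ω → ℝ) (e : Ω ≃ Ω) (h : ∀ w, θ (e w) = -θ w) :
    ∑ w, Complex.exp ((θ w : ℂ) * Complex.I) = ((∑ w, Real.cos (θ w) : ℝ) : ℂ) := by
  have h1 : ∑ w, Real.sin (θ w) = 0 := by
    have h2 : ∑ w, Real.sin (θ w) = ∑ w, Real.sin (θ (e w)) :=
      (Equiv.sum_comp e (fun w => Real.sin (θ w))).symm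
    have h3 : ∑ w, Real.sin (θ (e w)) = -∑ w, Real.sin (θ w) := by
      rw [← Finset.sum_neg_distrib]
      apply Finset.sum_congr rfl
      intro w _
      rw [h, Real.sin_neg]
    linarith
  have h4 : ∀ w, Complex.exp ((θ w : ℂ) * Complex.I) =
      ((Real.cos (θ w) : ℝ) : ℂ) + ((Real.sin (θ w) : ℝ) : ℂ) * Complex.I := by
    intro w
    rw [Complex.exp_mul_I, Complex.ofReal_cos, Complex.ofReal_sin]
  simp only [h4]
  rw [Finset.sum_add_distrib, ← Finset.sum_mul, ← Complex.ofReal_sum, ← Complex.ofReal_sum, h1]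
  simp

theorem t_chs (h : PIN) : CHS := by
  intro Ω _ _ X Y e hX hY s t
  have h1 := (h Ω ℤ ℤ X Y).2 (fun a => Complex.exp (((s * (a : ℝ) : ℝ) : ℂ) * Complex.I))
    (fun b => Complex.exp (((t * (b : ℝ) : ℝ) : ℂ) * Complex.I))
    (fun a => by rw [Complex.norm_exp_ofReal_mul_I]) (fun b => by rw [Complex.norm_exp_ofReal_mul_I])
  have h2 : ∀ w, Complex.exp (((s * (X w : ℝ) : ℝ) : ℂ) * Complex.I) *
      Complex.exp (((t * (Y w : ℝ) : ℝ) : ℂ) * Complex.I) =
      Complex.exp (((s * (X w : ℝ) + t * (Y w : ℝ) : ℝ) : ℂ) * Complex.I) := by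
    intro w
    rw [← Complex.exp_add]
    congr 1
    push_cast
    ring
  simp only [h2] at h1
  rw [CHS_sum (fun w => s * (X w : ℝ) + t * (Y w : ℝ)) e (fun w => by rw [hX, hY]; push_cast; ring),
    CHS_sum (fun w => s * (X w : ℝ)) e (fun w => by rw [hX]; push_cast; ring),
    CHS_sum (fun w => t * (Y w : ℝ)) e (fun w => by rw [hY]; push_cast; ring)] at h1
  unfold ch
  rw [← Complex.ofReal_natCast, ← Complex.ofReal_div, ← Complex.ofReal_div, ← Complex.ofReal_div,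
    ← Complex.ofReal_mul, ← Complex.ofReal_sub, Complex.norm_real, Real.norm_eq_abs] at h1
  exact h1

end Pool.Agent.helper43.BMH
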