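import Pool.Agent.helper43.BMH.Spec

/-! # MP_cef0b4, row POL -/

set_option autoImplicit false

namespace Pool.Agent.helper43.BMH

open scoped ENNReal

theorem t_pol : POL := by
  intro a b η hη
  have h1 := (isLittleO_pow_exp_pos_mul_atTop (k := a + b) (show 0 < η / 7 by positivity)).bound
    one_pos
  obtain ⟨x0, hx0⟩ := Filter.eventually_atTop.1 h1
  refine ⟨max 1 ⌈x0⌉₊, fun n hn => ?_⟩
  have hn1 : 1 ≤ n := (le_max_left _ _).trans hn
  have hn2 : x0 ≤ n := (Nat.le_ceil x0).trans (by exact_mod_cast (le_max_right _ _).trans hn)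
  have hn1' : (1 : ℝ) ≤ n := by exact_mod_cast hn1
  have he : Real.exp 1 < 3 := by
    have := Real.exp_one_lt_d9
    linarith
  have he0 := Real.exp_pos 1
  have h2 := hx0 (6 * (n : ℝ) + 1) (by linarith)
  rw [one_mul, Real.norm_of_nonneg (by positivity), Real.norm_of_nonneg (Real.exp_pos _).le] at h2
  calc (Real.exp 1 * (2 * (n : ℝ))) ^ a * (2 * (n : ℝ) + 1) ^ b
      ≤ (6 * (n : ℝ) + 1) ^ a * (6 * (n : ℝ) + 1) ^ b := by
        gcongr
        · nlinarith
        · linarith
    _ = (6 * (n : ℝ) + 1) ^ (a + b) := by rw [pow_add]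
    _ ≤ Real.exp (η / 7 * (6 * (n : ℝ) + 1)) := h2
    _ ≤ Real.exp (η * (n : ℝ)) := by
        apply Real.exp_le_exp.2
        nlinarith

end Pool.Agent.helper43.BMH
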