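import Pool.Agent.helper43.BMH.Spec

/-! # MP_cef0b4, row QPB -/

set_option autoImplicit false

namespace Pool.Agent.helper43.BMH

open scoped ENNReal
open Pool.Agent.helper75.BM (nrm N2 L dBM e2 pm1 pm2 e2_nonneg)

theorem t_qpb (h : HDN) : QPB := by
  intro p q _ _ hp hq d H hd hH y
  have hd0 : (0 : ℝ) < d := by exact_mod_cast hd
  have h1 := pm1 hp hd (H.mulVec y)
  have h2 := pm2 hq hd y
  have h3 : e2 (H.mulVec y) = (d : ℝ) ^ (1 / 2 : ℝ) * e2 y := by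
    unfold e2
    rw [((h (Fin d) H hH).2.2 y), Fintype.card_fin, Real.sqrt_mul hd0.le, Real.sqrt_eq_rpow]
  have h4 : (1 / p).toReal = 1 / p.toReal := by
    rw [ENNReal.toReal_div, ENNReal.toReal_one]
  rw [h3] at h1
  rw [h4]
  calc nrm p (H.mulVec y) ≤ (d : ℝ) ^ (1 / p.toReal - 1 / 2) * ((d : ℝ) ^ (1 / 2 : ℝ) * e2 y) := h1
    _ ≤ (d : ℝ) ^ (1 / p.toReal - 1 / 2) * ((d : ℝ) ^ (1 / 2 : ℝ) *
        ((d : ℝ) ^ (1 / 2 - (1 / q).toReal) * nrm q y)) := by gcongr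
    _ = ((d : ℝ) ^ (1 / p.toReal - 1 / 2) * (d : ℝ) ^ (1 / 2 : ℝ) *
        (d : ℝ) ^ (1 / 2 - (1 / q).toReal)) * nrm q y := by ring
    _ = (d : ℝ) ^ (1 / p.toReal + 1 / 2 - (1 / q).toReal) * nrm q y := by
        rw [← Real.rpow_add hd0, ← Real.rpow_add hd0]
        ring_nf

end Pool.Agent.helper43.BMH
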